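import Mathlib
import Pool.Agent.W307.FK.Stm
import Pool.Agent.W214.RK2.Desc4

/-! Task FK-RKS: the rank and the order of the 2-Selmer group. -/

set_option autoImplicit false

open WeierstrassCurve

namespace Pool.Agent.W402.FK

open Pool.Agent.H437R2.Man.MW (crv crv_eqn crv_nonsing add_double pt_fg neg_mk)
open Pool.Agent.W307.SE Pool.Agent.W307.RT

lemma coef (A B e1 e2 e3 : ℤ)
    (h : ∀ x : ℤ, x ^ 3 + A * x + B = (x - e1) * (x - e2) * (x - e3)) :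
    e1 + e2 + e3 = 0 ∧ A = e1 * e2 + e1 * e3 + e2 * e3 ∧ B = -(e1 * e2 * e3) := by
  have h0 := h 0
  have h1 := h 1
  have h2 := h (-1)
  have hB : B = -(e1 * e2 * e3) := by linarith
  have hs : e1 + e2 + e3 = 0 := by
    have : 2 * (e1 + e2 + e3) = 0 := by linarith
    omega
  refine ⟨hs, ?_, hB⟩
  have h3 : 1 + A + B = 1 - (e1 + e2 + e3) + (e1 * e2 + e1 * e3 + e2 * e3) - e1 * e2 * e3 := by
    linear_combination h1
  rw [hs, hB] at h3
  linarith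

lemma dist (A B e1 e2 e3 : ℤ) (hD : 4 * A ^ 3 + 27 * B ^ 2 ≠ 0)
    (h : ∀ x : ℤ, x ^ 3 + A * x + B = (x - e1) * (x - e2) * (x - e3)) :
    e1 ≠ e2 ∧ e1 ≠ e3 ∧ e2 ≠ e3 := by
  obtain ⟨hs, hA, hB⟩ := coef A B e1 e2 e3 h
  have h3 : e3 = -e1 - e2 := by linarith
  have key : 4 * A ^ 3 + 27 * B ^ 2 = -((e1 - e2) * (e1 - e3) * (e2 - e3)) ^ 2 := by
    rw [hA, hB, h3]
    ring
  rw [key] at hD
  refine ⟨?_, ?_, ?_⟩ <;> intro h' <;> apply hD <;> rw [h'] <;> ring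

lemma roots (A B e1 e2 e3 : ℤ)
    (h : ∀ x : ℤ, x ^ 3 + A * x + B = (x - e1) * (x - e2) * (x - e3)) (e : ℤ)
    (he : e ^ 3 + A * e + B = 0) : e = e1 ∨ e = e2 ∨ e = e3 := by
  rw [h e] at he
  rcases mul_eq_zero.1 he with h1 | h1
  · rcases mul_eq_zero.1 h1 with h2 | h2
    · left; linarith
    · right; left; linarith
  · right; right; linarith

lemma cub (K : Type) [Field K] (A B e1 e2 e3 : ℤ)
    (h : ∀ x : ℤ, x ^ 3 + A * x + B = (x - e1) * (x - e2) * (x - e3)) (x : K) :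
    x ^ 3 + A * x + B = (x - e1) * (x - e2) * (x - e3) := by
  obtain ⟨hs, hA, hB⟩ := coef A B e1 e2 e3 h
  have hs' : (e1 : K) + e2 + e3 = 0 := by exact_mod_cast congrArg (Int.cast : ℤ → K) hs
  rw [hA, hB]
  push_cast
  linear_combination x ^ 2 * hs'

/-- the class of a rational point is a local class everywhere -/
lemma loc_rat (K : Type) [Field K] [CharZero K] (A B : ℤ) (d : ℤ → ℤ) (x y : ℚ) (hy : y ≠ 0)
    (h : y ^ 2 = x ^ 3 + A * x + B)
    (hd : ∀ e : ℤ, e ^ 3 + A * e + B = 0 → IsSquare ((x - e) * d e)) : LocR K A B d := by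
  refine ⟨(x : K), (y : K), by exact_mod_cast hy, by exact_mod_cast congrArg (Rat.cast : ℚ → K) h,
    fun e he => ?_⟩
  obtain ⟨r, hr⟩ := hd e he
  refine ⟨(r : K), ?_⟩
  have h1 := congrArg (Rat.cast : ℚ → K) hr
  push_cast at h1
  exact h1

lemma loc_real (A B e1 e2 e3 : ℤ)
    (h : ∀ x : ℤ, x ^ 3 + A * x + B = (x - e1) * (x - e2) * (x - e3)) :
    LocR ℝ A B (fun _ => 1) := by
  set x : ℝ := |(e1 : ℝ)| + |(e2 : ℝ)| + |(e3 : ℝ)| + 1 with hx
  have a1 := le_abs_self (e1 : ℝ)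
  have a2 := le_abs_self (e2 : ℝ)
  have a3 := le_abs_self (e3 : ℝ)
  have b1 := abs_nonneg (e1 : ℝ)
  have b2 := abs_nonneg (e2 : ℝ)
  have b3 := abs_nonneg (e3 : ℝ)
  have p1 : 0 < x - e1 := by linarith
  have p2 : 0 < x - e2 := by linarith
  have p3 : 0 < x - e3 := by linarith
  have hp : 0 < (x - e1) * (x - e2) * (x - e3) := by positivity
  refine ⟨x, Real.sqrt ((x - e1) * (x - e2) * (x - e3)), (Real.sqrt_pos.2 hp).ne', ?_, ?_⟩
  · rw [Real.sq_sqrt hp.le, cub ℝ A B e1 e2 e3 h x]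
  · intro e he
    have hpos : 0 < x - e := by
      rcases roots A B e1 e2 e3 h e he with rfl | rfl | rfl <;> assumption
    refine ⟨Real.sqrt (x - e), ?_⟩
    rw [Real.mul_self_sqrt hpos.le]
    simp

/-- `1 + 4 p w` is a square -/
lemma hens (p : ℕ) [hp : Fact p.Prime] (w : ℤ_[p]) : IsSquare (1 + 4 * p * w) := by
  let F : Polynomial ℤ_[p] := Polynomial.X ^ 2 - Polynomial.C (1 + 4 * p * w)
  have h1 : F.aeval (1 : ℤ_[p]) = -(4 * p * w) := by
    simp [F]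
  have h2 : F.derivative.aeval (1 : ℤ_[p]) = 2 := by
    simp [F, one_add_one_eq_two]
  have h4 : 0 < ‖(4 : ℤ_[p])‖ := norm_pos_iff.2 (by norm_num)
  obtain ⟨z, hz, -⟩ := hensels_lemma (p := p) (R := ℤ_[p]) (F := F) (a := 1) (by
    rw [h1, h2, norm_neg, norm_mul, norm_mul]
    have h5 : ‖(2 : ℤ_[p])‖ ^ 2 = ‖(4 : ℤ_[p])‖ := by
      rw [← norm_pow]
      norm_num
    rw [h5]
    have h6 : ‖(p : ℤ_[p])‖ < 1 := by
      rw [PadicInt.norm_p]
      exact inv_lt_one_of_one_lt₀ (by exact_mod_cast hp.out.one_lt)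
    have h7 : ‖w‖ ≤ 1 := PadicInt.norm_le_one w
    calc ‖(4 : ℤ_[p])‖ * ‖(p : ℤ_[p])‖ * ‖w‖ ≤ ‖(4 : ℤ_[p])‖ * ‖(p : ℤ_[p])‖ * 1 := by
          gcongr
      _ < ‖(4 : ℤ_[p])‖ * 1 := by
          rw [mul_one]
          exact mul_lt_mul_of_pos_left h6 h4
      _ = ‖(4 : ℤ_[p])‖ := mul_one _)
  refine ⟨z, ?_⟩
  have : F.aeval z = z ^ 2 - (1 + 4 * p * w) := by simp [F]
  rw [this] at hz
  rw [← pow_two]
  exact (sub_eq_zero.1 hz).symm

lemma hens' (p : ℕ) [hp : Fact p.Prime] (e : ℤ) :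
    ∃ r : ℚ_[p], r ≠ 0 ∧ r ^ 2 = 1 / (2 * p) ^ 2 - e := by
  obtain ⟨z, hz⟩ := hens p (-(p * e) : ℤ_[p])
  have hp0 : (p : ℚ_[p]) ≠ 0 := by exact_mod_cast hp.out.ne_zero
  have h1 := congrArg (fun w : ℤ_[p] => (w : ℚ_[p])) hz
  have hc4 : ((4 : ℤ_[p]) : ℚ_[p]) = 4 := rfl
  push_cast at h1
  rw [hc4] at h1
  have h2 : ((z : ℚ_[p]) / (2 * p)) ^ 2 = 1 / (2 * p) ^ 2 - e := by
    rw [div_pow, pow_two (z : ℚ_[p]), ← h1]
    field_simp
    ring
  refine ⟨(z : ℚ_[p]) / (2 * p), ?_, h2⟩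
  intro h0
  rw [h0] at h2
  have h3 : ((1 - 4 * p ^ 2 * e : ℤ) : ℚ_[p]) = 0 := by
    push_cast
    have h4 : (1 : ℚ_[p]) - 4 * p ^ 2 * e = (2 * p) ^ 2 * (1 / (2 * p) ^ 2 - e) := by
      field_simp
      ring
    rw [h4, ← h2]
    simp
  have h5 : (1 - 4 * p ^ 2 * e : ℤ) = 0 := by exact_mod_cast h3
  have h6 : (4 : ℤ) ∣ 1 := ⟨(p : ℤ) ^ 2 * e, by linarith⟩
  norm_num at h6

lemma loc_pad (p : ℕ) [hp : Fact p.Prime] (A B e1 e2 e3 : ℤ)
    (h : ∀ x : ℤ, x ^ 3 + A * x + B = (x - e1) * (x - e2) * (x - e3)) :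
    LocR ℚ_[p] A B (fun _ => 1) := by
  obtain ⟨r1, n1, q1⟩ := hens' p e1
  obtain ⟨r2, n2, q2⟩ := hens' p e2
  obtain ⟨r3, n3, q3⟩ := hens' p e3
  refine ⟨1 / (2 * p) ^ 2, r1 * r2 * r3, mul_ne_zero (mul_ne_zero n1 n2) n3, ?_, ?_⟩
  · rw [cub ℚ_[p] A B e1 e2 e3 h, ← q1, ← q2, ← q3]
    ring
  · intro e _
    obtain ⟨r, -, q⟩ := hens' p e
    refine ⟨r, ?_⟩
    rw [← q]
    push_cast
    ring

lemma one_mem (A B e1 e2 e3 : ℤ)
    (h : ∀ x : ℤ, x ^ 3 + A * x + B = (x - e1) * (x - e2) * (x - e3)) :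
    (fun _ => 1) ∈ SelR A B :=
  ⟨fun _ => squarefree_one, fun _ _ => rfl, loc_real A B e1 e2 e3 h,
    fun p _ => loc_pad p A B e1 e2 e3 h⟩

/-- the class of a point -/
lemma exists_cls (A B : ℤ) (x y : ℚ) (hy : y ≠ 0)
    (hxy : y ^ 2 = x ^ 3 + A * x + B) :
    ∃ d ∈ SelR A B, ∀ e : ℤ, e ^ 3 + A * e + B = 0 → IsSquare ((x - e) * d e) := by
  classical
  have hne : ∀ e : ℤ, e ^ 3 + A * e + B = 0 → x - e ≠ 0 := by
    intro e he h0
    have h1 : x = e := sub_eq_zero.1 h0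
    rw [h1] at hxy
    have h2 : (e : ℚ) ^ 3 + A * e + B = 0 := by exact_mod_cast he
    rw [h2] at hxy
    exact hy (pow_eq_zero_iff (two_ne_zero) |>.1 hxy)
  have hex : ∀ e : ℤ, ∃ d : ℤ, Squarefree d ∧ (e ^ 3 + A * e + B ≠ 0 → d = 1) ∧
      (e ^ 3 + A * e + B = 0 → IsSquare ((x - e) * d)) := by
    intro e
    by_cases he : e ^ 3 + A * e + B = 0
    · obtain ⟨d, h1, h2⟩ := Pool.Agent.W214.RK2.exists_rep (x - e) (hne e he)
      exact ⟨d, h1, fun h => absurd he h, fun _ => h2⟩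
    · exact ⟨1, squarefree_one, fun _ => rfl, fun h => absurd h he⟩
  choose d h1 h2 h3 using hex
  exact ⟨d, ⟨h1, h2, loc_rat ℝ A B d x y hy hxy h3,
    fun p _ => loc_rat ℚ_[p] A B d x y hy hxy h3⟩, h3⟩

/-- the main step -/
theorem gen (A B e1 e2 e3 : ℤ) (hD : 4 * A ^ 3 + 27 * B ^ 2 ≠ 0)
    (h : ∀ x : ℤ, x ^ 3 + A * x + B = (x - e1) * (x - e2) * (x - e3))
    (hS : (SelR A B).Finite) (W : WeierstrassCurve ℚ)
    (hW : W = crv (-(e1 : ℚ)) (-(e2 : ℚ)) (-(e3 : ℚ))) :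
    2 ^ Module.finrank ℤ W.toAffine.Point ≤ (SelR A B).ncard := by
  classical
  subst hW
  obtain ⟨d12, d13, d23⟩ := dist A B e1 e2 e3 hD h
  have q12 : -(e1 : ℚ) ≠ -(e2 : ℚ) := fun h => d12 (by exact_mod_cast neg_injective h)
  have q13 : -(e1 : ℚ) ≠ -(e3 : ℚ) := fun h => d13 (by exact_mod_cast neg_injective h)
  have q23 : -(e2 : ℚ) ≠ -(e3 : ℚ) := fun h => d23 (by exact_mod_cast neg_injective h)
  have hfg := pt_fg q12 q13 q23
  have hcub := cub ℚ A B e1 e2 e3 h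
  by_cases h0 : Module.finrank ℤ (crv (-(e1 : ℚ)) (-(e2 : ℚ)) (-(e3 : ℚ))).toAffine.Point = 0
  · rw [h0, pow_zero]
    exact (Set.ncard_pos hS).2 ⟨_, one_mem A B e1 e2 e3 h⟩
  -- a point of infinite order
  have hinf : ∃ P0 : (crv (-(e1 : ℚ)) (-(e2 : ℚ)) (-(e3 : ℚ))).toAffine.Point,
      ∀ n : ℤ, n ≠ 0 → n • P0 ≠ 0 := by
    by_contra hcon
    push Not at hcon
    apply h0
    have : Module.Finite ℤ (crv (-(e1 : ℚ)) (-(e2 : ℚ)) (-(e3 : ℚ))).toAffine.Point :=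
      Module.Finite.iff_addGroup_fg.mpr hfg
    rw [Module.finrank_eq_zero_iff]
    intro P
    obtain ⟨n, h1, h2⟩ := hcon P
    exact ⟨n, h1, h2⟩
  obtain ⟨P0, hP0⟩ := hinf
  set R : (crv (-(e1 : ℚ)) (-(e2 : ℚ)) (-(e3 : ℚ))).toAffine.Point → (ℤ → ℤ) → Prop :=
    fun P d => ∃ (x y : ℚ) (hn : (crv (-(e1 : ℚ)) (-(e2 : ℚ)) (-(e3 : ℚ))).toAffine.Nonsingular x y),
      P = Affine.Point.some x y hn ∧ y ≠ 0 ∧
      ∀ e : ℤ, e ^ 3 + A * e + B = 0 → IsSquare ((x - e) * d e) with hR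
  set T : Finset (crv (-(e1 : ℚ)) (-(e2 : ℚ)) (-(e3 : ℚ))).toAffine.Point :=
    hS.toFinset.image (fun d => if hd : ∃ P, R P d then hd.choose else 0) with hT
  have hTc : T.card ≤ (SelR A B).ncard := by
    rw [Set.ncard_eq_toFinset_card _ hS]
    exact Finset.card_image_le
  -- nontrivial points are covered
  have hcov1 : ∀ (x y : ℚ)
      (hn : (crv (-(e1 : ℚ)) (-(e2 : ℚ)) (-(e3 : ℚ))).toAffine.Nonsingular x y), y ≠ 0 →
      ∃ t ∈ T, ∃ q : (crv (-(e1 : ℚ)) (-(e2 : ℚ)) (-(e3 : ℚ))).toAffine.Point,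
        (Affine.Point.some x y hn : (crv (-(e1 : ℚ)) (-(e2 : ℚ)) (-(e3 : ℚ))).toAffine.Point) =
          t + (q + q) := by
    intro x y hn hy
    have hxy : y ^ 2 = x ^ 3 + A * x + B := by
      rw [hcub x]
      have := crv_eqn.mp hn.1
      linear_combination this
    obtain ⟨d, hdS, hd⟩ := exists_cls A B x y hy hxy
    have hex : ∃ P, R P d := ⟨_, x, y, hn, rfl, hy, hd⟩
    refine ⟨hex.choose, ?_, ?_⟩
    · rw [hT, Finset.mem_image]
      exact ⟨d, hS.mem_toFinset.2 hdS, by rw [dif_pos hex]⟩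
    · obtain ⟨x', y', hn', hP, hy', hd'⟩ := hex.choose_spec
      rw [hP]
      have hxy' : y' ^ 2 = x' ^ 3 + A * x' + B := by
        rw [hcub x']
        have := crv_eqn.mp hn'.1
        linear_combination this
      have hsq : ∀ e : ℤ, e ^ 3 + A * e + B = 0 →
          ∃ r : ℚ, r ≠ 0 ∧ (x + -(e : ℚ)) * (x' + -(e : ℚ)) = r ^ 2 := by
        intro e he
        obtain ⟨r, hr⟩ := hd e he
        obtain ⟨r', hr'⟩ := hd' e he
        have hd0 : (d e : ℚ) ≠ 0 := by exact_mod_cast (hdS.1 e).ne_zero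
        have he' : (e : ℚ) ^ 3 + A * e + B = 0 := by exact_mod_cast he
        have hx0 : x - e ≠ 0 := by
          intro h0
          have h1 : x = e := sub_eq_zero.1 h0
          rw [h1, he'] at hxy
          exact hy (pow_eq_zero_iff (two_ne_zero) |>.1 hxy)
        have hx0' : x' - e ≠ 0 := by
          intro h0
          have h1 : x' = e := sub_eq_zero.1 h0
          rw [h1, he'] at hxy'
          exact hy' (pow_eq_zero_iff (two_ne_zero) |>.1 hxy')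
        have hrr : (x + -(e : ℚ)) * (x' + -(e : ℚ)) = (r * r' / d e) ^ 2 := by
          have h1 : (r * r') ^ 2 = ((x - e) * d e) * ((x' - e) * d e) := by
            rw [hr, hr']
            ring
          rw [div_pow, h1]
          field_simp
          ring
        refine ⟨r * r' / d e, ?_, hrr⟩
        intro h0
        rw [h0] at hrr
        have h1 : (x - e) * (x' - e) = 0 := by
          rw [sub_eq_add_neg, sub_eq_add_neg, hrr]
          ring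
        exact mul_ne_zero hx0 hx0' h1
      obtain ⟨r1, m1, hr1⟩ := hsq e1 (by rw [h e1]; ring)
      obtain ⟨r2, m2, hr2⟩ := hsq e2 (by rw [h e2]; ring)
      obtain ⟨r3, m3, hr3⟩ := hsq e3 (by rw [h e3]; ring)
      obtain ⟨Q, hQ⟩ := add_double (r1 := r1) (r2 := r2) (r3 := r3) q12 q13 q23 hn hn' m1 m2 m3
        hr1 hr2 hr3
      refine ⟨Q - Affine.Point.some x' y' hn', ?_⟩
      have e3 : (Affine.Point.some x y hn : (crv (-(e1 : ℚ)) (-(e2 : ℚ)) (-(e3 : ℚ))).toAffine.Point)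
          = (Q + Q) - Affine.Point.some x' y' hn' := by
        rw [hQ]
        abel
      rw [e3]
      abel
  -- all the points are covered
  have htriv : ∀ g : (crv (-(e1 : ℚ)) (-(e2 : ℚ)) (-(e3 : ℚ))).toAffine.Point,
      g + g = 0 ∨ ∃ t ∈ T, ∃ q : (crv (-(e1 : ℚ)) (-(e2 : ℚ)) (-(e3 : ℚ))).toAffine.Point,
        g = t + (q + q) := by
    intro g
    rcases g with _ | ⟨x, y, hn⟩
    · left
      exact add_zero _
    · by_cases hy : y = 0
      · left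
        subst hy
        have h1 : (crv (-(e1 : ℚ)) (-(e2 : ℚ)) (-(e3 : ℚ))).toAffine.Nonsingular x (-0) := by
          rw [neg_zero]
          exact hn
        have h2 := neg_mk hn h1
        have h3 : (Affine.Point.some x (-0) h1 :
            (crv (-(e1 : ℚ)) (-(e2 : ℚ)) (-(e3 : ℚ))).toAffine.Point) =
            Affine.Point.some x 0 hn := by
          congr 1
          try exact neg_zero
        rw [h3] at h2
        nth_rw 1 [← h2]
        exact neg_add_cancel _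
      · right
        exact hcov1 x y hn hy
  have hcov : ∀ g : (crv (-(e1 : ℚ)) (-(e2 : ℚ)) (-(e3 : ℚ))).toAffine.Point,
      ∃ t ∈ T, ∃ q, g = t + (q + q) := by
    intro g
    rcases htriv g with h1 | h1
    · rcases htriv (g + (P0 + P0)) with h2 | ⟨t, ht, q, hq⟩
      · exfalso
        apply hP0 4 (by norm_num)
        have h3 : (4 : ℤ) • P0 = (g + (P0 + P0)) + (g + (P0 + P0)) - (g + g) := by
          abel
        rw [h3, h1, h2, sub_zero]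
      · refine ⟨t, ht, q - P0, ?_⟩
        have h3 : g = (g + (P0 + P0)) - (P0 + P0) := by abel
        rw [h3, hq]
        abel
    · exact h1
  exact Pool.Agent.W505.RK.rkb _ hfg _ T hTc hcov

theorem rks : Pool.Agent.W307.FK.RKS := by
  intro A B e1 e2 e3 hD h hS
  obtain ⟨hs, hA, hB⟩ := coef A B e1 e2 e3 h
  refine gen A B e1 e2 e3 hD h hS (Sh A B) ?_
  have hs' : (e1 : ℚ) + e2 + e3 = 0 := by exact_mod_cast congrArg (Int.cast : ℤ → ℚ) hs
  apply WeierstrassCurve.ext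
  · rfl
  · show (0 : ℚ) = -(e1 : ℚ) + -(e2 : ℚ) + -(e3 : ℚ)
    linear_combination hs'
  · rfl
  · show (A : ℚ) = -(e1 : ℚ) * -(e2 : ℚ) + -(e1 : ℚ) * -(e3 : ℚ) + -(e2 : ℚ) * -(e3 : ℚ)
    rw [hA]
    push_cast
    ring
  · show (B : ℚ) = -(e1 : ℚ) * -(e2 : ℚ) * -(e3 : ℚ)
    rw [hB]
    push_cast
    ring

end Pool.Agent.W402.FK
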